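import Mathlib

set_option autoImplicit false

namespace Pool.Agent.Results.MP_d015b4_co.Counter

/-- `K` is a cutset for `x`: its elements are incomparable to `x`, and `K ∪ {x}` meets every
maximal chain. -/
def IsCutsetFor {L : Type} [PartialOrder L] (x : L) (K : Set L) : Prop :=
  (∀ a ∈ K, ¬ a ≤ x ∧ ¬ x ≤ a) ∧
    ∀ C : Set L, IsMaxChain (· ≤ ·) C → ((K ∪ {x}) ∩ C).Nonempty

abbrev LL : Type := Bool × Bool × WithBot (Fin 3 × Bool × Bool)

def code (a : LL) : ℕ :=
  (if a.1 then 2 else 0) + (if a.2.1 then 4 else 0) +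
    (match a.2.2 with
      | none => 0
      | some t => 1 + (if t.1 = 0 then 0 else if t.1 = 1 then 8 else 72) +
          (if t.2.1 then 16 else 0) + (if t.2.2 then 32 else 0))

def dec (s : ℕ) : LL :=
  (s.testBit 1, s.testBit 2,
    if s.testBit 0 then
      ((if s.testBit 6 then 2 else if s.testBit 3 then 1 else 0, s.testBit 4, s.testBit 5) :
        Fin 3 × Bool × Bool)
    else ⊥)

def allC : List ℕ := [0, 1, 2, 3, 4, 5, 6, 7, 9, 11, 13, 15, 17, 19, 21, 23, 25, 27, 29, 31, 33,
  35, 37, 39, 41, 43, 45, 47, 49, 51, 53, 55, 57, 59, 61, 63, 73, 75, 77, 79, 89, 91, 93, 95, 105,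
  107, 109, 111, 121, 123, 125, 127]

def leb (a b : ℕ) : Bool := a &&& b == a

def inc (a b : ℕ) : Bool := !(leb a b) && !(leb b a)

lemma code_mem : ∀ a : LL, code a ∈ allC := by decide +kernel

lemma dec_code : ∀ a : LL, dec (code a) = a := by decide +kernel

lemma code_dec : ∀ s ∈ allC, code (dec s) = s := by decide +kernel

lemma le_iff : ∀ a b : LL, a ≤ b ↔ leb (code a) (code b) = true := by decide +kernel

lemma code_inj : Function.Injective code := fun a b h => by
  rw [← dec_code a, h, dec_code]

lemma inc_iff (a b : LL) : inc (code a) (code b) = true ↔ ¬ a ≤ b ∧ ¬ b ≤ a := by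
  simp [inc, le_iff]

lemma inc_irrefl (a : ℕ) : inc a a = false := by simp [inc, leb]

lemma inc_symm (a b : ℕ) : inc a b = inc b a := by simp [inc, Bool.and_comm]

def search : ℕ → List ℕ → List ℕ → Bool
  | 0, _, _ => false
  | _ + 1, [], ch => (ch.length != 10) || allC.any (fun e => ch.all (inc e))
  | f + 1, v :: rest, ch =>
      decide (ch.length + rest.length + 1 < 10) ||
        (search f rest ch && search f (rest.filter (inc v)) (v :: ch))

lemma search_sound (A : Finset ℕ) (hA : ∀ a ∈ A, ∀ b ∈ A, a ≠ b → inc a b = true)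
    (hc : A.card = 10) : ∀ (f : ℕ) (rest ch : List ℕ), search f rest ch = true → ch.Nodup →
      (∀ r ∈ rest, ∀ c ∈ ch, inc r c = true) → (∀ c ∈ ch, c ∈ A) →
      (∀ a ∈ A, a ∈ ch ∨ a ∈ rest) → ∃ e ∈ allC, ∀ a ∈ A, inc e a = true := by
  intro f
  induction f with
  | zero => intro rest ch h; simp [search] at h
  | succ f ih =>
    intro rest ch h hnd hr hch hcov
    cases rest with
    | nil =>
      have hE : A = ch.toFinset := by
        ext a
        simp only [List.mem_toFinset]
        exact ⟨fun ha => by simpa using hcov a ha, hch a⟩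
      have hl : ch.length = 10 := by
        rw [← hc, hE, List.toFinset_card_of_nodup hnd]
      simp only [search, hl, bne_self_eq_false, Bool.false_or, List.any_eq_true,
        List.all_eq_true] at h
      obtain ⟨e, he, hh⟩ := h
      exact ⟨e, he, fun a ha => hh a (by simpa [hE] using ha)⟩
    | cons v rest =>
      simp only [search, Bool.or_eq_true, decide_eq_true_eq, Bool.and_eq_true] at h
      rcases h with h | ⟨h1, h2⟩
      · exfalso
        have hs : A ⊆ (ch ++ v :: rest).toFinset := by
          intro a ha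
          rw [List.mem_toFinset, List.mem_append]
          exact hcov a ha
        have := (Finset.card_le_card hs).trans (List.toFinset_card_le _)
        simp at this
        omega
      · by_cases hv : v ∈ A
        · refine ih _ _ h2 ?_ ?_ ?_ ?_
          · refine List.nodup_cons.2 ⟨fun hm => ?_, hnd⟩
            have := hr v (by simp) v hm
            rw [inc_irrefl] at this
            exact absurd this (by simp)
          · intro r hr' c hc'
            rw [List.mem_filter] at hr'
            rcases List.mem_cons.1 hc' with rfl | hc'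
            · rw [inc_symm]; exact hr'.2
            · exact hr r (by simp [hr'.1]) c hc'
          · intro c hc'
            rcases List.mem_cons.1 hc' with rfl | hc'
            · exact hv
            · exact hch c hc'
          · intro a ha
            by_cases hav : a = v
            · left; simp [hav]
            · rcases hcov a ha with h | h
              · left; simp [h]
              · right
                rcases List.mem_cons.1 h with h | h
                · exact absurd h hav
                · exact List.mem_filter.2 ⟨h, hA v hv a ha (Ne.symm hav)⟩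
        · refine ih _ _ h1 hnd (fun r hr' c hc' => hr r (by simp [hr']) c hc') hch ?_
          intro a ha
          rcases hcov a ha with h | h
          · exact Or.inl h
          · rcases List.mem_cons.1 h with h | h
            · exact absurd (h ▸ ha) hv
            · exact Or.inr h

lemma search_run : search 60 (allC.filter (inc 73)) [73] = true := by decide +kernel

def x0 : LL := dec 73

lemma code_x0 : code x0 = 73 := by decide +kernel

lemma no_antichain (A : Set LL) (hA : Maximal (IsAntichain (· ≤ ·)) A) (hx : x0 ∈ A) :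
    A.ncard ≠ 10 := by
  classical
  intro hc
  have hfin : A.Finite := Set.toFinite A
  set B : Finset ℕ := hfin.toFinset.image code with hB
  have hmem : ∀ s, s ∈ B ↔ ∃ a ∈ A, code a = s := by
    intro s
    rw [hB, Finset.mem_image]
    simp only [Set.Finite.mem_toFinset]
  have hBc : B.card = 10 := by
    rw [hB, Finset.card_image_of_injective _ code_inj, ← hc, Set.ncard_eq_toFinset_card A hfin]
  have hBA : ∀ a ∈ B, ∀ b ∈ B, a ≠ b → inc a b = true := by
    intro s hs t ht hne
    obtain ⟨a, ha, rfl⟩ := (hmem s).1 hs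
    obtain ⟨b, hb, rfl⟩ := (hmem t).1 ht
    have hab : a ≠ b := fun h => hne (by rw [h])
    exact (inc_iff a b).2 ⟨hA.1 ha hb hab, hA.1 hb ha hab.symm⟩
  obtain ⟨e, he, hh⟩ := search_sound B hBA hBc 60 _ _ search_run (by simp)
    (by
      intro r hr c hc'
      rw [List.mem_singleton.1 hc', inc_symm]
      exact (List.mem_filter.1 hr).2)
    (by
      intro c hc'
      rw [List.mem_singleton.1 hc']
      exact (hmem _).2 ⟨x0, hx, code_x0⟩)
    (by
      intro s hs
      by_cases h : s = 73
      · left; simp [h]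
      · right
        refine List.mem_filter.2 ⟨?_, hBA 73 ((hmem _).2 ⟨x0, hx, code_x0⟩) s hs (Ne.symm h)⟩
        obtain ⟨a, -, rfl⟩ := (hmem s).1 hs
        exact code_mem a)
  have hinc : ∀ a ∈ A, ¬ dec e ≤ a ∧ ¬ a ≤ dec e := by
    intro a ha
    rw [← inc_iff, code_dec e he]
    exact hh _ ((hmem _).2 ⟨a, ha, rfl⟩)
  have hins : IsAntichain (· ≤ ·) (insert (dec e) A) :=
    hA.1.insert (fun b hb _ => (hinc b hb).2) (fun b hb _ => (hinc b hb).1)
  have := hA.2 hins (Set.subset_insert _ _) (Set.mem_insert _ _)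
  exact (hinc _ this).1 le_rfl

def cutL : List ℕ := [3, 5, 6, 11, 13, 17, 25, 33, 41]
def reachL : List ℕ := [0, 1, 2, 4, 9]

lemma reach_closed' : ∀ s ∈ reachL, ∀ t ∈ allC, leb s t = true → s ≠ t →
    (t ∈ cutL ∨ t = 73 ∨ t ∈ reachL ∨
      ∃ u ∈ allC, (leb s u = true ∧ s ≠ u) ∧ (leb u t = true ∧ u ≠ t)) := by
  decide +kernel

lemma reach_closed (a b : LL) (ha : code a ∈ reachL) (hab : a < b) :
    (code b ∈ cutL ∨ b = x0 ∨ code b ∈ reachL ∨ ∃ c : LL, a < c ∧ c < b) := by
  rcases reach_closed' _ ha _ (code_mem b) ((le_iff a b).1 hab.le)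
    (fun h => hab.ne (code_inj h)) with h | h | h | ⟨u, hu, ⟨h1, h2⟩, h3, h4⟩
  · exact Or.inl h
  · exact Or.inr (Or.inl (code_inj (h.trans code_x0.symm)))
  · exact Or.inr (Or.inr (Or.inl h))
  · rw [← code_dec u hu] at h1 h2 h3 h4
    exact Or.inr (Or.inr (Or.inr ⟨dec u,
      lt_of_le_of_ne ((le_iff _ _).2 h1) (fun h => h2 (congrArg code h)),
      lt_of_le_of_ne ((le_iff _ _).2 h3) (fun h => h4 (congrArg code h))⟩))

lemma reach_top : ∀ a : LL, code a ∈ reachL → a ≠ ⊤ := by decide +kernel

lemma reach_bot : code ⊥ ∈ reachL := by decide +kernel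

lemma cut_ok : IsCutsetFor x0 {a : LL | code a ∈ cutL} := by
  refine ⟨?_, ?_⟩
  · have : ∀ a : LL, code a ∈ cutL → ¬ a ≤ x0 ∧ ¬ x0 ≤ a := by decide +kernel
    exact this
  · intro C hC
    by_contra hno
    have hno' : ∀ c ∈ C, code c ∉ cutL ∧ c ≠ x0 := by
      intro c hc
      constructor
      · intro h; exact hno ⟨c, Or.inl h, hc⟩
      · intro h; exact hno ⟨c, Or.inr h, hc⟩
    have hbot : (⊥ : LL) ∈ C := hC.bot_mem
    have htop : (⊤ : LL) ∈ C := hC.top_mem
    obtain ⟨a, ⟨haC, haR⟩, hamax⟩ := (Set.toFinite {c : LL | c ∈ C ∧ code c ∈ reachL}).exists_maximal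
      ⟨⊥, hbot, reach_bot⟩
    have hat : a < ⊤ := lt_top_iff_ne_top.2 (reach_top a haR)
    obtain ⟨b, ⟨hbC, hab⟩, hbmin⟩ := (Set.toFinite {c : LL | c ∈ C ∧ a < c}).exists_minimal
      ⟨⊤, htop, hat⟩
    rcases reach_closed a b haR hab with h | h | h | ⟨c, hac, hcb⟩
    · exact (hno' b hbC).1 h
    · exact (hno' b hbC).2 h
    · exact absurd (hamax ⟨hbC, h⟩ hab.le) hab.not_ge
    · have hcomp : ∀ d ∈ C, c ≤ d ∨ d ≤ c := by
        intro d hd
        rcases hC.1.total haC hd with h | h
        · rcases h.eq_or_lt with h | h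
          · right; rw [← h]; exact hac.le
          · rcases hC.1.total hbC hd with h' | h'
            · left; exact hcb.le.trans h'
            · left; exact hcb.le.trans (hbmin ⟨hd, h⟩ h')
        · right; exact h.trans hac.le
      have hch : IsChain (· ≤ ·) (insert c C) := hC.1.insert (fun d hd _ => hcomp d hd)
      have hE := hC.2 hch (Set.subset_insert _ _)
      have hcC : c ∈ C := by rw [hE]; exact Set.mem_insert _ _
      exact absurd (hbmin ⟨hcC, hac⟩ hcb.le) hcb.not_ge

lemma cut_card : ({a : LL | code a ∈ cutL} : Set LL).ncard = 9 := by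
  have : ({a : LL | code a ∈ cutL} : Set LL) =
      ((Finset.univ.filter (fun a : LL => code a ∈ cutL) : Finset LL) : Set LL) := by
    ext a; simp
  rw [this, Set.ncard_coe_finset]
  decide +kernel

def paths : Fin 9 → List ℕ := ![[0, 1, 9, 25, 89, 91, 123, 127], [0, 1, 9, 11, 75, 107, 123, 127],
  [0, 1, 9, 13, 45, 47, 63, 127], [0, 1, 9, 41, 105, 109, 111, 127],
  [0, 1, 33, 49, 51, 59, 123, 127], [0, 1, 17, 21, 23, 31, 95, 127],
  [0, 1, 3, 35, 43, 107, 123, 127], [0, 1, 5, 37, 53, 61, 125, 127],
  [0, 4, 6, 7, 15, 79, 111, 127]]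

lemma paths_chain : ∀ i : Fin 9, ∀ s ∈ paths i, ∀ t ∈ paths i, inc s t = false := by
  decide +kernel

lemma paths_max : ∀ i : Fin 9, ∀ s ∈ allC, s ∈ paths i ∨ ∃ t ∈ paths i, t ∈ allC ∧ inc s t = true := by
  decide +kernel

lemma paths_disj : ∀ i j : Fin 9, ∀ s ∈ paths i, s ∈ paths j → inc s 73 = true → i = j := by
  decide +kernel

lemma paths_x : ∀ i : Fin 9, 73 ∉ paths i := by decide +kernel

lemma path_maxChain (i : Fin 9) : IsMaxChain (· ≤ ·) {a : LL | code a ∈ paths i} := by
  refine ⟨?_, ?_⟩
  · intro a ha b hb _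
    by_contra h
    have := (inc_iff a b).2 (not_or.1 h)
    rw [paths_chain i _ ha _ hb] at this
    exact absurd this (by simp)
  · intro T hT hsub
    refine Set.Subset.antisymm hsub (fun a ha => ?_)
    rcases paths_max i _ (code_mem a) with h | ⟨t, ht, hta, h⟩
    · exact h
    · exfalso
      have hb : dec t ∈ T := hsub (show code (dec t) ∈ paths i by rw [code_dec t hta]; exact ht)
      rw [← code_dec t hta, inc_iff] at h
      rcases hT.total ha hb with h' | h'
      · exact h.1 h'
      · exact h.2 h'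

lemma cut_lower (K : Set LL) (hK : IsCutsetFor x0 K) : 9 ≤ K.ncard := by
  have h1 : ∀ i : Fin 9, ∃ a ∈ K, code a ∈ paths i := by
    intro i
    obtain ⟨a, ha, hp⟩ := hK.2 _ (path_maxChain i)
    rcases ha with ha | ha
    · exact ⟨a, ha, hp⟩
    · exfalso
      rw [Set.mem_singleton_iff.1 ha] at hp
      exact paths_x i (by rw [← code_x0]; exact hp)
  choose g hg hp using h1
  have hinj : Function.Injective g := by
    intro i j hij
    refine paths_disj i j _ (hp i) (by rw [hij]; exact hp j) ?_
    rw [← code_x0, inc_iff]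
    exact hK.1 _ (hg i)
  have hsub : Set.range g ⊆ K := by rintro _ ⟨i, rfl⟩; exact hg i
  have := Set.ncard_le_ncard hsub (Set.toFinite K)
  rwa [Set.ncard_range_of_injective hinj, Nat.card_eq_fintype_card, Fintype.card_fin] at this

/-- There is a finite distributive lattice with an element `x` whose minimum-sized cutsets have `m`
elements, such that no maximal antichain containing `x` has exactly `m + 1` elements. -/
theorem result : ¬ ∀ (L : Type) [DistribLattice L] [Finite L] (x : L) (m : ℕ),
    IsLeast {k : ℕ | ∃ K : Set L, IsCutsetFor x K ∧ K.ncard = k} m →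
      ∃ A : Set L, Maximal (IsAntichain (· ≤ ·)) A ∧ x ∈ A ∧ A.ncard = m + 1 := by
  intro h
  obtain ⟨A, hA, hx, hc⟩ := h LL x0 9
    ⟨⟨_, cut_ok, cut_card⟩, by rintro k ⟨K, hK, rfl⟩; exact cut_lower K hK⟩
  exact no_antichain A hA hx hc

end Pool.Agent.Results.MP_d015b4_co.Counter
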